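import Pool.Agent.Helper88.Ric.Stmts

set_option autoImplicit false

open Complex ComplexConjugate

noncomputable section

namespace RicP

theorem cond_norm (A₁ A₂ e₁ e₂ f₁ f₂ : ℂ) (D t₀ t₁ t₂ : ℝ)
    (h1 : D * (normSq e₁ + normSq f₁) = t₂) (h2 : D * (normSq e₂ + normSq f₂) = t₀)
    (h3 : D * (e₁ * conj e₂ + f₁ * conj f₂).re = -t₁)
    (h4 : D * (e₁ * conj e₂ + f₁ * conj f₂).im = 0) :
    D * (normSq (A₁ * conj e₁ + A₂ * conj e₂) + normSq (A₁ * conj f₁ + A₂ * conj f₂)) =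
      t₂ * normSq A₁ + t₀ * normSq A₂ - 2 * t₁ * (A₁ * conj A₂).re := by
  obtain ⟨a, b⟩ := e₁
  obtain ⟨c, d⟩ := e₂
  obtain ⟨g, h⟩ := f₁
  obtain ⟨k, l⟩ := f₂
  obtain ⟨p, q⟩ := A₁
  obtain ⟨r, s⟩ := A₂
  simp only [normSq_apply, add_re, add_im, mul_re, mul_im, conj_re, conj_im] at *
  linear_combination (p * p + q * q) * h1 + (r * r + s * s) * h2 + 2 * (p * r + q * s) * h3
    + 2 * (q * r - p * s) * h4

theorem cond_pos (t : Ten) (h0 : 0 < t 0) (hd : 0 < t.det) (v : ℂ × ℂ) (hv : v ≠ 0) :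
    0 < (t.G v v).re := by
  obtain ⟨⟨a, b⟩, ⟨c, d⟩⟩ := v
  have e : (t.G (⟨a, b⟩, ⟨c, d⟩) (⟨a, b⟩, ⟨c, d⟩)).re =
      t 0 * (a ^ 2 + b ^ 2) + 2 * t 1 * (a * c + b * d) + t 2 * (c ^ 2 + d ^ 2) := by
    simp only [Ten.G, add_re, mul_re, mul_im, add_im, conj_re, conj_im, ofReal_re, ofReal_im]
    ring
  rw [e]
  unfold Ten.det at hd
  have e2 : t 0 * (t 0 * (a ^ 2 + b ^ 2) + 2 * t 1 * (a * c + b * d) + t 2 * (c ^ 2 + d ^ 2)) =
      (t 0 * a + t 1 * c) ^ 2 + (t 0 * b + t 1 * d) ^ 2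
        + (t 0 * t 2 - t 1 ^ 2) * (c ^ 2 + d ^ 2) := by ring
  have h3 : 0 < t 0 * (t 0 * (a ^ 2 + b ^ 2) + 2 * t 1 * (a * c + b * d)
      + t 2 * (c ^ 2 + d ^ 2)) := by
    rw [e2]
    by_cases hc : c ^ 2 + d ^ 2 = 0
    · have hc0 : c = 0 := by nlinarith [sq_nonneg c, sq_nonneg d]
      have hd0 : d = 0 := by nlinarith [sq_nonneg c, sq_nonneg d]
      subst hc0 hd0
      have hab : 0 < a ^ 2 + b ^ 2 := by
        rcases (add_nonneg (sq_nonneg a) (sq_nonneg b)).lt_or_eq with h | h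
        · exact h
        · exfalso
          have ha0 : a = 0 := by nlinarith [sq_nonneg a, sq_nonneg b]
          have hb0 : b = 0 := by nlinarith [sq_nonneg a, sq_nonneg b]
          subst ha0 hb0
          exact hv rfl
      have : (t 0 * a + t 1 * 0) ^ 2 + (t 0 * b + t 1 * 0) ^ 2 +
          (t 0 * t 2 - t 1 ^ 2) * ((0 : ℝ) ^ 2 + 0 ^ 2) = t 0 ^ 2 * (a ^ 2 + b ^ 2) := by ring
      rw [this]
      positivity
    · have hc1 : 0 < c ^ 2 + d ^ 2 := lt_of_le_of_ne (by positivity) (Ne.symm hc)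
      positivity
  exact (mul_pos_iff_of_pos_left h0).1 h3

/-- the quadratic form `∑ K_ij x_i y_j` -/
def condK (t : Ten) (x₀ x₁ x₂ y₀ y₁ y₂ : ℝ) : ℝ :=
  t.K00 * x₀ * y₀ + t.K11 * x₁ * y₁ + t.K22 * x₂ * y₂ + t.K01 * (x₀ * y₁ + x₁ * y₀)
    + t.K02 * (x₀ * y₂ + x₂ * y₀) + t.K12 * (x₁ * y₂ + x₂ * y₁)

theorem cond_K (t : Ten) (x y r₀ m : ℝ) (h : t 0 * r₀ + t 1 * y + t 2 * x = 0) :
    t 0 ^ 2 * (condK t r₀ y x r₀ y x
      + condK t (m * t 2) (-2 * m * t 1) (m * t 0) (m * t 2) (-2 * m * t 1) (m * t 0)) =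
    x ^ 2 * t.KDD + 2 * x * y * t.KDO + y ^ 2 * t.KOO + t 0 ^ 2 * (m ^ 2 * t.KII) := by
  have h' : t 0 * r₀ = -(t 1 * y) - t 2 * x := by linarith
  unfold condK Ten.KDD Ten.KDO Ten.KOO Ten.KII
  linear_combination (t.K00 * (t 0 * r₀ - t 1 * y - t 2 * x) + 2 * t.K01 * t 0 * y
    + 2 * t.K02 * t 0 * x) * h

theorem st_COND : ST_COND := by
  rintro t ⟨h0, hd, hDD, hDO, hII⟩
  refine ⟨fun v hv => cond_pos t h0 hd v hv, ?_⟩
  rintro ⟨e₁, e₂⟩ ⟨f₁, f₂⟩ hee hff hef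
  have hdet : t.det = t 0 * t 2 - t 1 ^ 2 := rfl
  -- the vectors `P`, `R` and the Wronskian `μ`
  have hee' : e₁ * (t 0 * conj e₁ + t 1 * conj e₂) + e₂ * (t 1 * conj e₁ + t 2 * conj e₂) = 1 := by
    rw [← hee]
    unfold Ten.G
    ring
  have hfe' : f₁ * (t 0 * conj e₁ + t 1 * conj e₂) + f₂ * (t 1 * conj e₁ + t 2 * conj e₂) = 0 := by
    have := congrArg conj hef
    rw [map_zero] at this
    rw [← this]
    unfold Ten.G
    simp only [map_add, map_mul, conj_ofReal, conj_conj]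
    ring
  obtain ⟨μ, hμ⟩ : ∃ μ : ℂ, μ = e₁ * f₂ - e₂ * f₁ := ⟨_, rfl⟩
  have hf1 : f₁ = -(μ * (t 1 * conj e₁ + t 2 * conj e₂)) := by
    rw [hμ]
    linear_combination (-f₁) * hee' + e₁ * hfe'
  have hf2 : f₂ = μ * (t 0 * conj e₁ + t 1 * conj e₂) := by
    rw [hμ]
    linear_combination (-f₂) * hee' + e₂ * hfe'
  have heeR : t 0 * normSq e₁ + 2 * t 1 * (e₁ * conj e₂).re + t 2 * normSq e₂ = 1 := by
    have := congrArg Complex.re hee'
    rw [one_re] at this
    rw [← this]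
    simp only [normSq_apply, add_re, mul_re, mul_im, add_im, conj_re, conj_im, ofReal_re,
      ofReal_im]
    ring
  have hμd : normSq μ * t.det = 1 := by
    have h1 := congrArg Complex.re hff
    rw [one_re, hf1, hf2] at h1
    rw [← h1]
    have h2 : (t.G (-(μ * (t 1 * conj e₁ + t 2 * conj e₂)), μ * (t 0 * conj e₁ + t 1 * conj e₂))
        (-(μ * (t 1 * conj e₁ + t 2 * conj e₂)), μ * (t 0 * conj e₁ + t 1 * conj e₂))).re =
        normSq μ * t.det * (t 0 * normSq e₁ + 2 * t 1 * (e₁ * conj e₂).re + t 2 * normSq e₂) := by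
      unfold Ten.G
      rw [hdet]
      simp only [normSq_apply, add_re, mul_re, mul_im, add_im, conj_re, conj_im, ofReal_re,
        ofReal_im, neg_re, neg_im, map_neg, map_mul, map_add, conj_ofReal, conj_conj]
      ring
    rw [h2, heeR, mul_one]
  have hN : ∀ z : ℂ, t.det * normSq (μ * z) = normSq z := by
    intro z
    rw [map_mul]
    linear_combination (normSq z) * hμd
  have n1 : t.det * (normSq e₁ + normSq f₁) = t 2 := by
    have h1 : normSq f₁ = normSq (μ * (t 1 * conj e₁ + t 2 * conj e₂)) := by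
      rw [hf1, normSq_neg]
    have h2 : normSq (t 1 * conj e₁ + t 2 * conj e₂) =
        t 1 ^ 2 * normSq e₁ + 2 * t 1 * t 2 * (e₁ * conj e₂).re + t 2 ^ 2 * normSq e₂ := by
      simp only [normSq_apply, add_re, mul_re, mul_im, add_im, conj_re, conj_im, ofReal_re,
        ofReal_im]
      ring
    rw [h1, mul_add, hN, h2, hdet]
    linear_combination (t 2) * heeR
  have n2 : t.det * (normSq e₂ + normSq f₂) = t 0 := by
    have h2 : normSq (t 0 * conj e₁ + t 1 * conj e₂) =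
        t 0 ^ 2 * normSq e₁ + 2 * t 0 * t 1 * (e₁ * conj e₂).re + t 1 ^ 2 * normSq e₂ := by
      simp only [normSq_apply, add_re, mul_re, mul_im, add_im, conj_re, conj_im, ofReal_re,
        ofReal_im]
      ring
    rw [hf2, mul_add, hN, h2, hdet]
    linear_combination (t 0) * heeR
  have n34 : (t.det : ℂ) * (f₁ * conj f₂) =
      -((t 1 * conj e₁ + t 2 * conj e₂) * (t 0 * e₁ + t 1 * e₂)) := by
    have h1 : (normSq μ : ℂ) * (t.det : ℂ) = 1 := by
      rw [← ofReal_mul, hμd, ofReal_one]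
    rw [hf1, hf2]
    simp only [map_add, map_mul, conj_ofReal, conj_conj]
    have h2 : μ * conj μ = (normSq μ : ℂ) := mul_conj μ
    linear_combination (-((t 1 * conj e₁ + t 2 * conj e₂) * (t 0 * e₁ + t 1 * e₂))) * h1
      - ((t.det : ℂ) * (t 1 * conj e₁ + t 2 * conj e₂) * (t 0 * e₁ + t 1 * e₂)) * h2
  have n3 : t.det * (e₁ * conj e₂ + f₁ * conj f₂).re = -t 1 := by
    have h1 := congrArg Complex.re n34
    rw [re_ofReal_mul] at h1
    rw [add_re, mul_add, h1, hdet]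
    have h2 : (-((t 1 * conj e₁ + t 2 * conj e₂) * (t 0 * e₁ + t 1 * e₂))).re =
        -(t 0 * t 1 * normSq e₁ + (t 1 ^ 2 + t 0 * t 2) * (e₁ * conj e₂).re
          + t 1 * t 2 * normSq e₂) := by
      simp only [normSq_apply, add_re, mul_re, mul_im, add_im, conj_re, conj_im, ofReal_re,
        ofReal_im, neg_re]
      ring
    rw [h2]
    linear_combination (-t 1) * heeR
  have n4 : t.det * (e₁ * conj e₂ + f₁ * conj f₂).im = 0 := by
    have h1 := congrArg Complex.im n34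
    rw [im_ofReal_mul] at h1
    rw [add_im, mul_add, h1, hdet]
    simp only [add_re, mul_re, mul_im, add_im, conj_re, conj_im, ofReal_re,
      ofReal_im, neg_im]
    ring
  -- the tensor `e ⊙ f`
  obtain ⟨m, hm⟩ : ∃ m : ℝ, m = -(e₁ * conj e₂).im := ⟨_, rfl⟩
  obtain ⟨x, hx⟩ : ∃ x : ℝ, x = t 0 * (e₁ * conj e₂).re + t 1 * normSq e₂ := ⟨_, rfl⟩
  obtain ⟨y, hy⟩ : ∃ y : ℝ, y = t 0 * normSq e₁ - t 2 * normSq e₂ := ⟨_, rfl⟩
  obtain ⟨r, hr⟩ : ∃ r : ℝ, r = -(t 1 * normSq e₁ + t 2 * (e₁ * conj e₂).re) := ⟨_, rfl⟩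
  have s0 : e₁ * f₁ = μ * (r + (m * t 2 : ℝ) * I) := by
    rw [hf1]
    have : -(e₁ * (t 1 * conj e₁ + t 2 * conj e₂)) = r + (m * t 2 : ℝ) * I := by
      rw [hr, hm]
      apply Complex.ext
      · simp only [normSq_apply, add_re, mul_re, mul_im, add_im, conj_re, conj_im, ofReal_re,
          ofReal_im, neg_re, I_re, I_im]
        ring
      · simp only [normSq_apply, add_re, mul_re, mul_im, add_im, conj_re, conj_im, ofReal_re,
          ofReal_im, neg_im, I_re, I_im]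
        ring
    linear_combination μ * this
  have s1 : e₁ * f₂ + e₂ * f₁ = μ * (y + (-2 * m * t 1 : ℝ) * I) := by
    rw [hf1, hf2]
    have : e₁ * (t 0 * conj e₁ + t 1 * conj e₂) - e₂ * (t 1 * conj e₁ + t 2 * conj e₂) =
        y + (-2 * m * t 1 : ℝ) * I := by
      rw [hy, hm]
      apply Complex.ext
      · simp only [normSq_apply, add_re, mul_re, mul_im, add_im, conj_re, conj_im, ofReal_re,
          ofReal_im, sub_re, I_re, I_im]
        ring
      · simp only [normSq_apply, add_re, mul_re, mul_im, add_im, conj_re, conj_im, ofReal_re,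
          ofReal_im, sub_im, I_re, I_im]
        ring
    linear_combination μ * this
  have s2 : e₂ * f₂ = μ * (x + (m * t 0 : ℝ) * I) := by
    rw [hf2]
    have : e₂ * (t 0 * conj e₁ + t 1 * conj e₂) = x + (m * t 0 : ℝ) * I := by
      rw [hx, hm]
      apply Complex.ext
      · simp only [normSq_apply, add_re, mul_re, mul_im, add_im, conj_re, conj_im, ofReal_re,
          ofReal_im, I_re, I_im]
        ring
      · simp only [normSq_apply, add_re, mul_re, mul_im, add_im, conj_re, conj_im, ofReal_re,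
          ofReal_im, I_re, I_im]
        ring
    linear_combination μ * this
  -- third derivatives
  have hT : ∀ g : ℂ × ℂ, t.T3 (e₁, e₂) (f₁, f₂) g =
      (μ * ((r * t 3 + y * t 5 + x * t 7 : ℝ)
        + (m * (t 2 * t 3 - 2 * t 1 * t 5 + t 0 * t 7) : ℝ) * I)) * conj g.1
      + (μ * ((r * t 4 + y * t 6 + x * t 8 : ℝ)
        + (m * (t 2 * t 4 - 2 * t 1 * t 6 + t 0 * t 8) : ℝ) * I)) * conj g.2 := by
    intro g
    unfold Ten.T3
    simp only
    rw [s0, s1, s2]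
    push_cast
    ring
  have hQ : (t.Q4 (e₁, e₂) (f₁, f₂) (e₁, e₂) (f₁, f₂)).re = normSq μ *
      (t 9 * (r ^ 2 + (m * t 2) ^ 2) + t 12 * (y ^ 2 + (-2 * m * t 1) ^ 2)
        + t 14 * (x ^ 2 + (m * t 0) ^ 2)
        + 2 * t 10 * (r * y + (m * t 2) * (-2 * m * t 1))
        + 2 * t 11 * (r * x + (m * t 2) * (m * t 0))
        + 2 * t 13 * (y * x + (-2 * m * t 1) * (m * t 0))) := by
    unfold Ten.Q4
    simp only
    rw [s0, s1, s2]
    simp only [normSq_apply, add_re, mul_re, mul_im, add_im, conj_re, conj_im, ofReal_re,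
      ofReal_im, I_re, I_im, map_mul, map_add]
    ring
  have hS := cond_norm
    (μ * ((r * t 3 + y * t 5 + x * t 7 : ℝ)
        + (m * (t 2 * t 3 - 2 * t 1 * t 5 + t 0 * t 7) : ℝ) * I))
    (μ * ((r * t 4 + y * t 6 + x * t 8 : ℝ)
        + (m * (t 2 * t 4 - 2 * t 1 * t 6 + t 0 * t 8) : ℝ) * I))
    e₁ e₂ f₁ f₂ t.det (t 0) (t 1) (t 2) n1 n2 n3 n4
  have hS2 : t 2 * normSq (μ * ((r * t 3 + y * t 5 + x * t 7 : ℝ)
        + (m * (t 2 * t 3 - 2 * t 1 * t 5 + t 0 * t 7) : ℝ) * I))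
      + t 0 * normSq (μ * ((r * t 4 + y * t 6 + x * t 8 : ℝ)
        + (m * (t 2 * t 4 - 2 * t 1 * t 6 + t 0 * t 8) : ℝ) * I))
      - 2 * t 1 * ((μ * ((r * t 3 + y * t 5 + x * t 7 : ℝ)
        + (m * (t 2 * t 3 - 2 * t 1 * t 5 + t 0 * t 7) : ℝ) * I)) *
        conj (μ * ((r * t 4 + y * t 6 + x * t 8 : ℝ)
        + (m * (t 2 * t 4 - 2 * t 1 * t 6 + t 0 * t 8) : ℝ) * I))).re =
      normSq μ * (t 2 * ((r * t 3 + y * t 5 + x * t 7) ^ 2
          + (m * (t 2 * t 3 - 2 * t 1 * t 5 + t 0 * t 7)) ^ 2)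
        + t 0 * ((r * t 4 + y * t 6 + x * t 8) ^ 2
          + (m * (t 2 * t 4 - 2 * t 1 * t 6 + t 0 * t 8)) ^ 2)
        - 2 * t 1 * ((r * t 3 + y * t 5 + x * t 7) * (r * t 4 + y * t 6 + x * t 8)
          + (m * (t 2 * t 3 - 2 * t 1 * t 5 + t 0 * t 7)) *
            (m * (t 2 * t 4 - 2 * t 1 * t 6 + t 0 * t 8)))) := by
    generalize r * t 3 + y * t 5 + x * t 7 = A
    generalize r * t 4 + y * t 6 + x * t 8 = B
    generalize m * (t 2 * t 3 - 2 * t 1 * t 5 + t 0 * t 7) = C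
    generalize m * (t 2 * t 4 - 2 * t 1 * t 6 + t 0 * t 8) = D
    simp only [normSq_apply, add_re, mul_re, mul_im, add_im, conj_re, conj_im, ofReal_re,
      ofReal_im, I_re, I_im, map_mul, map_add]
    ring
  rw [hS2] at hS
  -- the final identity
  have key : t.det * (-(t.Q4 (e₁, e₂) (f₁, f₂) (e₁, e₂) (f₁, f₂)).re
      + ‖t.T3 (e₁, e₂) (f₁, f₂) (e₁, e₂)‖ ^ 2 + ‖t.T3 (e₁, e₂) (f₁, f₂) (f₁, f₂)‖ ^ 2) =
      -(normSq μ * (condK t r y x r y x
        + condK t (m * t 2) (-2 * m * t 1) (m * t 0) (m * t 2) (-2 * m * t 1) (m * t 0))) := by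
    rw [hQ, hT, hT, Complex.sq_norm, Complex.sq_norm]
    unfold condK Ten.K00 Ten.K11 Ten.K22 Ten.K01 Ten.K02 Ten.K12 Ten.kk
    linear_combination hS
  have hrel : t 0 * r + t 1 * y + t 2 * x = 0 := by
    rw [hr, hx, hy]
    ring
  have hK := cond_K t x y r m hrel
  have hμpos : 0 < normSq μ := by
    rcases (normSq_nonneg μ).lt_or_eq with h | h
    · exact h
    · rw [← h, zero_mul] at hμd
      exact absurd hμd zero_ne_one
  have hpos : 0 < x ^ 2 * t.KDD + 2 * x * y * t.KDO + y ^ 2 * t.KOO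
      + t 0 ^ 2 * (m ^ 2 * t.KII) := by
    have hq : 0 ≤ x ^ 2 * t.KDD + 2 * x * y * t.KDO + y ^ 2 * t.KOO := by
      have h1 : 0 ≤ t.KDD * (x ^ 2 * t.KDD + 2 * x * y * t.KDO + y ^ 2 * t.KOO) := by
        have : t.KDD * (x ^ 2 * t.KDD + 2 * x * y * t.KDO + y ^ 2 * t.KOO) =
          (t.KDD * x + t.KDO * y) ^ 2 + y ^ 2 * (t.KDD * t.KOO - t.KDO ^ 2) := by ring
        rw [this]
        have h2 : 0 ≤ t.KDD * t.KOO - t.KDO ^ 2 := by linarith
        positivity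
      exact nonneg_of_mul_nonneg_right h1 hDD
    have hq2 : 0 ≤ t 0 ^ 2 * (m ^ 2 * t.KII) := by positivity
    rcases (add_nonneg hq hq2).lt_or_eq with h | h
    · exact h
    · exfalso
      have hz1 : x ^ 2 * t.KDD + 2 * x * y * t.KDO + y ^ 2 * t.KOO = 0 := by linarith
      have hz2 : t 0 ^ 2 * (m ^ 2 * t.KII) = 0 := by linarith
      have hm0 : m = 0 := by
        have h3 : m ^ 2 * t.KII = 0 := by
          rcases mul_eq_zero.1 hz2 with h | h
          · exact absurd h (by positivity)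
          · exact h
        rcases mul_eq_zero.1 h3 with h | h
        · exact pow_eq_zero_iff two_ne_zero |>.1 h
        · exact absurd h hII.ne'
      have h4 : (t.KDD * x + t.KDO * y) ^ 2 + y ^ 2 * (t.KDD * t.KOO - t.KDO ^ 2) = 0 := by
        have : (t.KDD * x + t.KDO * y) ^ 2 + y ^ 2 * (t.KDD * t.KOO - t.KDO ^ 2) =
          t.KDD * (x ^ 2 * t.KDD + 2 * x * y * t.KDO + y ^ 2 * t.KOO) := by ring
        rw [this, hz1, mul_zero]
      have h5 : 0 < t.KDD * t.KOO - t.KDO ^ 2 := by linarith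
      have h6 : 0 ≤ y ^ 2 * (t.KDD * t.KOO - t.KDO ^ 2) := by positivity
      have h7 : y ^ 2 * (t.KDD * t.KOO - t.KDO ^ 2) = 0 := by
        have := sq_nonneg (t.KDD * x + t.KDO * y)
        linarith
      have hy0 : y = 0 := by
        rcases mul_eq_zero.1 h7 with h | h
        · exact pow_eq_zero_iff two_ne_zero |>.1 h
        · exact absurd h h5.ne'
      have hx0 : x = 0 := by
        rw [hy0] at h4
        have h8 : (t.KDD * x) ^ 2 = 0 := by linarith
        have h9 := pow_eq_zero_iff two_ne_zero |>.1 h8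
        rcases mul_eq_zero.1 h9 with h | h
        · exact absurd h hDD.ne'
        · exact h
      -- then `e = 0`
      have hr0 : r = 0 := by
        rw [hx0, hy0, mul_zero, mul_zero, add_zero, add_zero] at hrel
        rcases mul_eq_zero.1 hrel with h | h
        · exact absurd h h0.ne'
        · exact h
      rw [hr0, hm0] at s0
      rw [hx0, hm0] at s2
      rw [hy0, hm0] at s1
      simp only [zero_mul, mul_zero, ofReal_zero, add_zero] at s0 s1 s2
      have s1' : e₁ * f₂ = 0 ∧ e₂ * f₁ = 0 := by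
        have h10 : (e₁ * f₂) * (e₂ * f₁) = 0 := by
          have : (e₁ * f₂) * (e₂ * f₁) = (e₁ * f₁) * (e₂ * f₂) := by ring
          rw [this, s0, zero_mul]
        have h11 : (e₁ * f₂) ^ 2 = 0 := by linear_combination (e₁ * f₂) * s1 - h10
        have h12 := pow_eq_zero_iff two_ne_zero |>.1 h11
        refine ⟨h12, ?_⟩
        rw [h12, zero_add] at s1
        exact s1
      rw [s1'.1, s1'.2, sub_zero] at hμ
      rw [hμ, map_zero] at hμpos
      exact lt_irrefl _ hμpos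
  have hfin : 0 < condK t r y x r y x
      + condK t (m * t 2) (-2 * m * t 1) (m * t 0) (m * t 2) (-2 * m * t 1) (m * t 0) := by
    rw [← hK] at hpos
    exact (mul_pos_iff_of_pos_left (by positivity)).1 hpos
  have h20 : t.det * (-(t.Q4 (e₁, e₂) (f₁, f₂) (e₁, e₂) (f₁, f₂)).re
      + ‖t.T3 (e₁, e₂) (f₁, f₂) (e₁, e₂)‖ ^ 2
      + ‖t.T3 (e₁, e₂) (f₁, f₂) (f₁, f₂)‖ ^ 2) < 0 := by
    rw [key]
    have := mul_pos hμpos hfin
    linarith
  by_contra hc
  rw [not_lt] at hc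
  have := mul_nonneg hd.le hc
  linarith

end RicP
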