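import Pool.Agent.Helper90.Ric.Calc

set_option autoImplicit false

open scoped ContDiff Topology
open Complex ComplexConjugate

noncomputable section

namespace RicP

/-! ### real directional derivatives -/

theorem HCURV_Dd_smooth {U : Set (ℝ × ℝ)} (hU : IsOpen U) {u : ℝ × ℝ → ℝ}
    (hu : ContDiffOn ℝ ∞ u U) (b : ℝ × ℝ) : ContDiffOn ℝ ∞ (Dd b u) U := by
  have h1 : ContDiffOn ℝ ∞ (fderiv ℝ u) U := hu.fderiv_of_isOpen hU (by simp)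
  exact h1.clm_apply contDiffOn_const

theorem HCURV_Dd_congr {U : Set (ℝ × ℝ)} (hU : IsOpen U) {u v : ℝ × ℝ → ℝ}
    (h : ∀ x ∈ U, u x = v x) (b : ℝ × ℝ) {p : ℝ × ℝ} (hp : p ∈ U) : Dd b u p = Dd b v p := by
  have h1 : u =ᶠ[𝓝 p] v := by
    filter_upwards [hU.mem_nhds hp] with x hx using h x hx
  unfold Dd
  rw [h1.fderiv_eq]

theorem HCURV_Dd_comm {U : Set (ℝ × ℝ)} (hU : IsOpen U) {u : ℝ × ℝ → ℝ}
    (hu : ContDiffOn ℝ ∞ u U) (a b : ℝ × ℝ) {p : ℝ × ℝ} (hp : p ∈ U) :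
    Dd a (Dd b u) p = Dd b (Dd a u) p := by
  have h1 : ContDiffOn ℝ ∞ (fderiv ℝ u) U := hu.fderiv_of_isOpen hU (by simp)
  have h2 : HasFDerivAt (fderiv ℝ u) (fderiv ℝ (fderiv ℝ u) p) p :=
    ((h1.contDiffAt (hU.mem_nhds hp)).differentiableAt (by simp)).hasFDerivAt
  have h3 : ∀ w : ℝ × ℝ, HasFDerivAt (Dd w u) ((fderiv ℝ (fderiv ℝ u) p).flip w) p := by
    intro w
    have h := h2.clm_apply (hasFDerivAt_const w p)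
    rw [ContinuousLinearMap.comp_zero, zero_add] at h
    exact h
  have hsym : IsSymmSndFDerivAt ℝ u p :=
    (hu.contDiffAt (hU.mem_nhds hp)).isSymmSndFDerivAt (by
      rw [minSmoothness_of_isRCLikeNormedField]
      exact WithTop.coe_le_coe.2 (le_top : (2 : ℕ∞) ≤ ⊤))
  have e : ∀ a b : ℝ × ℝ, Dd a (Dd b u) p = fderiv ℝ (fderiv ℝ u) p a b := by
    intro a b
    have : Dd a (Dd b u) p = fderiv ℝ (Dd b u) p a := rfl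
    rw [this, (h3 b).fderiv]
    rfl
  rw [e, e]
  exact hsym a b

/-! ### the pull-back -/

/-- `(α Im y₁, β Im y₂)` -/
def HCURV_L (α β : ℝ) (y : E) : ℝ × ℝ := (α * y.1.im, β * y.2.im)

def HCURV_CL (α β : ℝ) : E →L[ℝ] ℝ × ℝ :=
  (α • (Complex.imCLM.comp (ContinuousLinearMap.fst ℝ ℂ ℂ))).prod
    (β • (Complex.imCLM.comp (ContinuousLinearMap.snd ℝ ℂ ℂ)))

theorem HCURV_CL_apply (α β : ℝ) (y : E) : HCURV_CL α β y = HCURV_L α β y := rfl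

def HCURV_P (α β : ℝ) (u : ℝ × ℝ → ℝ) : E → ℂ := toC (fun y => u (HCURV_L α β y))

theorem HCURV_fderiv (α β : ℝ) {u : ℝ × ℝ → ℝ} {y : E}
    (hu : DifferentiableAt ℝ u (HCURV_L α β y)) (v : E) :
    fderiv ℝ (HCURV_P α β u) y v = ((fderiv ℝ u (HCURV_L α β y) (HCURV_L α β v) : ℝ) : ℂ) := by
  have h1 : HasFDerivAt (fun y => HCURV_L α β y) (HCURV_CL α β) y :=
    (HCURV_CL α β).hasFDerivAt
  have h2 : HasFDerivAt (fun y => u (HCURV_L α β y))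
      ((fderiv ℝ u (HCURV_L α β y)).comp (HCURV_CL α β)) y :=
    HasFDerivAt.comp y hu.hasFDerivAt h1
  have h3 : HasFDerivAt (HCURV_P α β u) (Complex.ofRealCLM.comp
      ((fderiv ℝ u (HCURV_L α β y)).comp (HCURV_CL α β))) y :=
    HasFDerivAt.comp y (Complex.ofRealCLM.hasFDerivAt) h2
  rw [h3.fderiv]
  rfl

/-- the direction `2 i (b.1/α, b.2/β)` -/
def HCURV_e (α β : ℝ) (b : ℝ × ℝ) : E := (((2 * (b.1 / α) : ℝ) : ℂ) * I, ((2 * (b.2 / β) : ℝ) : ℂ) * I)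

theorem HCURV_L_e {α β : ℝ} (hα : α ≠ 0) (hβ : β ≠ 0) (b : ℝ × ℝ) :
    HCURV_L α β (HCURV_e α β b) = (2 : ℝ) • b := by
  unfold HCURV_L HCURV_e
  apply Prod.ext
  · simp only [im_ofReal_mul, I_im, mul_one, Prod.smul_fst, smul_eq_mul]
    field_simp
  · simp only [im_ofReal_mul, I_im, mul_one, Prod.smul_snd, smul_eq_mul]
    field_simp

theorem HCURV_L_Ie (α β : ℝ) (b : ℝ × ℝ) :
    HCURV_L α β (I • HCURV_e α β b) = 0 := by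
  have h : ∀ r : ℝ, (I * ((r : ℂ) * I)).im = 0 := by
    intro r
    have : I * ((r : ℂ) * I) = ((-r : ℝ) : ℂ) := by
      push_cast
      linear_combination (r : ℂ) * I_mul_I
    rw [this, ofReal_im]
  unfold HCURV_L HCURV_e
  apply Prod.ext
  · simp only [Prod.smul_fst, smul_eq_mul, Prod.fst_zero]
    rw [h, mul_zero]
  · simp only [Prod.smul_snd, smul_eq_mul, Prod.snd_zero]
    rw [h, mul_zero]

theorem HCURV_dz {α β : ℝ} (hα : α ≠ 0) (hβ : β ≠ 0) {U : Set (ℝ × ℝ)} (hU : IsOpen U)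
    {u : ℝ × ℝ → ℝ} (hu : ContDiffOn ℝ ∞ u U) (b : ℝ × ℝ) {y : E} (hy : HCURV_L α β y ∈ U) :
    dz (HCURV_e α β b) (HCURV_P α β u) y = HCURV_P α β (Dd b u) y := by
  have hd : DifferentiableAt ℝ u (HCURV_L α β y) :=
    (hu.contDiffAt (hU.mem_nhds hy)).differentiableAt (by simp)
  unfold dz
  rw [HCURV_fderiv α β hd, HCURV_fderiv α β hd, HCURV_L_e hα hβ, HCURV_L_Ie, map_smul, map_zero]
  unfold HCURV_P toC Dd
  push_cast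
  simp only [smul_eq_mul]
  push_cast
  ring

theorem HCURV_dzb {α β : ℝ} (hα : α ≠ 0) (hβ : β ≠ 0) {U : Set (ℝ × ℝ)} (hU : IsOpen U)
    {u : ℝ × ℝ → ℝ} (hu : ContDiffOn ℝ ∞ u U) (b : ℝ × ℝ) {y : E} (hy : HCURV_L α β y ∈ U) :
    dzb (HCURV_e α β b) (HCURV_P α β u) y = HCURV_P α β (Dd b u) y := by
  have hd : DifferentiableAt ℝ u (HCURV_L α β y) :=
    (hu.contDiffAt (hU.mem_nhds hy)).differentiableAt (by simp)
  unfold dzb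
  rw [HCURV_fderiv α β hd, HCURV_fderiv α β hd, HCURV_L_e hα hβ, HCURV_L_Ie, map_smul, map_zero]
  unfold HCURV_P toC Dd
  push_cast
  simp only [smul_eq_mul]
  push_cast
  ring

theorem st_HCURV (hC : ST_COND) : ST_HCURV := by
  intro ψ U hU hψ α β hα hβ x hx b₁ b₂ hb ht
  obtain ⟨W, hW⟩ : ∃ W : Set E, W = {y | HCURV_L α β y ∈ U} := ⟨_, rfl⟩
  have hWo : IsOpen W := by
    rw [hW]
    exact hU.preimage (HCURV_CL α β).continuous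
  have hx' : HCURV_L α β x ∈ U := hx
  have hxW : x ∈ W := by
    rw [hW]
    exact hx
  have hmem : ∀ y ∈ W, HCURV_L α β y ∈ U := by
    intro y hy
    rw [hW] at hy
    exact hy
  have hφ : ContDiffOn ℝ ∞ (fun y : E => ψ (α * y.1.im, β * y.2.im)) W :=
    hψ.comp (HCURV_CL α β).contDiff.contDiffOn hmem
  have e1 : ∀ {u : ℝ × ℝ → ℝ}, ContDiffOn ℝ ∞ u U → ∀ b : ℝ × ℝ, ∀ y ∈ W,
    dz (HCURV_e α β b) (HCURV_P α β u) y = HCURV_P α β (Dd b u) y :=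
    fun hu b y hy => HCURV_dz hα hβ hU hu b (hmem y hy)
  have e2 : ∀ {u : ℝ × ℝ → ℝ}, ContDiffOn ℝ ∞ u U → ∀ b : ℝ × ℝ, ∀ y ∈ W,
    dzb (HCURV_e α β b) (HCURV_P α β u) y = HCURV_P α β (Dd b u) y :=
    fun hu b y hy => HCURV_dzb hα hβ hU hu b (hmem y hy)
  have sm : ∀ {u : ℝ × ℝ → ℝ}, ContDiffOn ℝ ∞ u U → ∀ b : ℝ × ℝ, ContDiffOn ℝ ∞ (Dd b u) U :=
    fun hu b => HCURV_Dd_smooth hU hu b
  -- iterated derivatives
  have i2 : ∀ a b : ℝ × ℝ, ∀ y ∈ W, dz (HCURV_e α β a) (dzb (HCURV_e α β b) (HCURV_P α β ψ)) y =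
      HCURV_P α β (Dd a (Dd b ψ)) y := by
    intro a b y hy
    rw [calc_dz_congr hWo (e2 hψ b) _ hy]
    exact e1 (sm hψ b) a y hy
  have i3 : ∀ a b c : ℝ × ℝ, ∀ y ∈ W, dz (HCURV_e α β a) (dz (HCURV_e α β b)
      (dzb (HCURV_e α β c) (HCURV_P α β ψ))) y = HCURV_P α β (Dd a (Dd b (Dd c ψ))) y := by
    intro a b c y hy
    rw [calc_dz_congr hWo (i2 b c) _ hy]
    exact e1 (sm (sm hψ c) b) a y hy
  have i3' : ∀ a b c : ℝ × ℝ, ∀ y ∈ W, dzb (HCURV_e α β a) (dz (HCURV_e α β b)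
      (dzb (HCURV_e α β c) (HCURV_P α β ψ))) y = HCURV_P α β (Dd a (Dd b (Dd c ψ))) y := by
    intro a b c y hy
    rw [calc_dzb_congr hWo (i2 b c) _ hy]
    exact e2 (sm (sm hψ c) b) a y hy
  have i4 : ∀ a b c d : ℝ × ℝ, ∀ y ∈ W, dz (HCURV_e α β a) (dzb (HCURV_e α β b)
      (dz (HCURV_e α β c) (dzb (HCURV_e α β d) (HCURV_P α β ψ)))) y =
        HCURV_P α β (Dd a (Dd b (Dd c (Dd d ψ)))) y := by
    intro a b c d y hy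
    rw [calc_dz_congr hWo (i3' b c d) _ hy]
    exact e1 (sm (sm (sm hψ d) c) b) a y hy
  -- commutation
  have p1 : ∀ {u : ℝ × ℝ → ℝ}, ContDiffOn ℝ ∞ u U → ∀ q ∈ U,
      Dd b₂ (Dd b₁ u) q = Dd b₁ (Dd b₂ u) q := fun hu q hq => HCURV_Dd_comm hU hu _ _ hq
  have p2 : ∀ {u : ℝ × ℝ → ℝ}, ContDiffOn ℝ ∞ u U → ∀ a : ℝ × ℝ, ∀ q ∈ U,
      Dd a (Dd b₂ (Dd b₁ u)) q = Dd a (Dd b₁ (Dd b₂ u)) q :=
    fun hu a q hq => HCURV_Dd_congr hU (p1 hu) a hq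
  have p3 : ∀ {u : ℝ × ℝ → ℝ}, ContDiffOn ℝ ∞ u U → ∀ a b : ℝ × ℝ, ∀ q ∈ U,
      Dd a (Dd b (Dd b₂ (Dd b₁ u))) q = Dd a (Dd b (Dd b₁ (Dd b₂ u))) q :=
    fun hu a b q hq => HCURV_Dd_congr hU (p2 hu b) a hq
  -- the frame
  obtain ⟨bb, hbb⟩ : ∃ bb : Fin 2 → ℝ × ℝ, bb = ![b₁, b₂] := ⟨_, rfl⟩
  have hb0 : bb 0 = b₁ := by rw [hbb]; rfl
  have hb1 : bb 1 = b₂ := by rw [hbb]; rfl
  have hspan : ∀ v : E, ∃ c : Fin 2 → ℂ, v = ∑ k, c k • HCURV_e α β (bb k) := by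
    intro v
    have hb' : ((b₁.1 : ℂ) * b₂.2 - b₁.2 * b₂.1) ≠ 0 := by
      exact_mod_cast hb
    have hα' : (α : ℂ) ≠ 0 := by exact_mod_cast hα
    have hβ' : (β : ℂ) ≠ 0 := by exact_mod_cast hβ
    obtain ⟨κ, hκ⟩ : ∃ κ : ℂ, ((b₁.1 : ℂ) * b₂.2 - b₁.2 * b₂.1) * κ = 1 :=
      ⟨_, mul_inv_cancel₀ hb'⟩
    have ha := mul_inv_cancel₀ hα'
    have hb'' := mul_inv_cancel₀ hβ'
    refine ⟨![(-I / 2) * (α * v.1 * b₂.2 - β * v.2 * b₂.1) * κ,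
      (-I / 2) * (β * v.2 * b₁.1 - α * v.1 * b₁.2) * κ], ?_⟩
    rw [Fin.sum_univ_two, hb0, hb1]
    unfold HCURV_e
    apply Prod.ext
    · simp only [Matrix.cons_val_zero, Matrix.cons_val_one, Prod.smul_mk, smul_eq_mul,
        Prod.mk_add_mk, div_eq_mul_inv]
      push_cast
      linear_combination (κ * (α : ℂ)⁻¹ * α * v.1 * ((b₁.1 : ℂ) * b₂.2 - b₁.2 * b₂.1)) * I_mul_I
        - (κ * ((b₁.1 : ℂ) * b₂.2 - b₁.2 * b₂.1) * v.1) * ha - v.1 * hκ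
    · simp only [Matrix.cons_val_zero, Matrix.cons_val_one, Prod.smul_mk, smul_eq_mul,
        Prod.mk_add_mk, div_eq_mul_inv]
      push_cast
      linear_combination (κ * (β : ℂ)⁻¹ * β * v.2 * ((b₁.1 : ℂ) * b₂.2 - b₁.2 * b₂.1)) * I_mul_I
        - (κ * ((b₁.1 : ℂ) * b₂.2 - b₁.2 * b₂.1) * v.2) * hb'' - v.2 * hκ
  have hP : ∀ (u : ℝ × ℝ → ℝ), HCURV_P α β u x = ((u (HCURV_L α β x) : ℝ) : ℂ) := fun _ => rfl
  obtain ⟨t, hteq⟩ : ∃ t : Ten, t = tenOf ψ (HCURV_L α β x) b₁ b₂ := ⟨_, rfl⟩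
  have h2 : ∀ i j : Fin 2, Dd (bb i) (Dd (bb j) ψ) (HCURV_L α β x) = calcT2 t i j := by
    rw [hteq]
    simp only [Fin.forall_fin_two, hb0, hb1]
    exact ⟨⟨rfl, rfl⟩, ⟨p1 hψ _ hx', rfl⟩⟩
  have h3 : ∀ i k j : Fin 2, Dd (bb i) (Dd (bb k) (Dd (bb j) ψ)) (HCURV_L α β x) =
      calcT3 t i k j := by
    rw [hteq]
    simp only [Fin.forall_fin_two, hb0, hb1]
    exact ⟨⟨⟨rfl, rfl⟩, ⟨p2 hψ b₁ _ hx', rfl⟩⟩,
      ⟨⟨(p1 (sm hψ b₁) _ hx').trans (p2 hψ b₁ _ hx'), p1 (sm hψ b₂) _ hx'⟩,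
      ⟨(p2 hψ b₂ _ hx').trans (p1 (sm hψ b₂) _ hx'), rfl⟩⟩⟩
  have h4 : ∀ i j k l : Fin 2, Dd (bb i) (Dd (bb j) (Dd (bb k) (Dd (bb l) ψ)))
      (HCURV_L α β x) = calcQ4 t i k j l := by
    rw [hteq]
    simp only [Fin.forall_fin_two, hb0, hb1]
    have c1112 := p3 hψ b₁ b₁ _ hx'
    have c1211 := (p2 (sm hψ b₁) b₁ _ hx').trans c1112
    have c1212 := p2 (sm hψ b₂) b₁ _ hx'
    have c2112 := (p1 (sm (sm hψ b₂) b₁) _ hx').trans c1212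
    have c2121 := (p3 hψ b₂ b₁ _ hx').trans c2112
    have c2122 := p1 (sm (sm hψ b₂) b₂) _ hx'
    have c2212 := (p2 (sm hψ b₂) b₂ _ hx').trans c2122
    exact ⟨⟨⟨⟨rfl, rfl⟩, ⟨c1112, rfl⟩⟩,
      ⟨⟨c1211, c1212⟩, ⟨(p3 hψ b₁ b₂ _ hx').trans c1212, rfl⟩⟩⟩,
      ⟨⟨⟨(p1 (sm (sm hψ b₁) b₁) _ hx').trans c1211, c2112⟩, ⟨c2121, c2122⟩⟩,
      ⟨⟨(p2 (sm hψ b₁) b₂ _ hx').trans c2121, c2212⟩,
        ⟨(p3 hψ b₂ b₂ _ hx').trans c2212, rfl⟩⟩⟩⟩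
  refine calc_frame_good hC hWo hφ hxW (fun k => HCURV_e α β (bb k)) hspan t ?_ ?_ ?_ ?_
  · intro i j
    rw [← h2]
    exact i2 (bb i) (bb j) x hxW
  · intro i k j
    rw [← h3]
    exact i3 (bb i) (bb k) (bb j) x hxW
  · intro i j k l
    rw [← h4]
    exact i4 (bb i) (bb j) (bb k) (bb l) x hxW
  · rw [hteq]
    exact ht

end RicP
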