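import Pool.Agent.Helper90.Ric.Calc

set_option autoImplicit false

open scoped ContDiff Topology
open Complex ComplexConjugate

noncomputable section

namespace RicP

def JET_e : Fin 2 → E := ![(1, 0), (0, 1)]

theorem JET_span (v : E) : ∃ c : Fin 2 → ℂ, v = ∑ k, c k • JET_e k := by
  refine ⟨![v.1, v.2], ?_⟩
  rw [Fin.sum_univ_two]
  apply Prod.ext <;> simp [JET_e]

/-- normal order of the fourth derivatives -/
theorem JET_fourth {U : Set E} (hU : IsOpen U) {F : E → ℂ} (hF : ContDiffOn ℝ ∞ F U)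
    (a b c d : E) {p : E} (hp : p ∈ U) :
    dz a (dzb c (dz b (dzb d F))) p = dz a (dz b (dzb c (dzb d F))) p :=
  calc_dz_congr hU (fun _ hx => calc_dzb_dz_comm hU (calc_dzb_smooth hU hF d) c b hx) a hp

theorem JET_swap_z {U : Set E} (hU : IsOpen U) {F : E → ℂ} (hF : ContDiffOn ℝ ∞ F U)
    (a b c d : E) {p : E} (hp : p ∈ U) :
    dz a (dz b (dzb c (dzb d F))) p = dz b (dz a (dzb c (dzb d F))) p :=
  calc_dz_comm hU (calc_dzb_smooth hU (calc_dzb_smooth hU hF d) c) a b hp

theorem JET_swap_zb {U : Set E} (hU : IsOpen U) {F : E → ℂ} (hF : ContDiffOn ℝ ∞ F U)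
    (a b c d : E) {p : E} (hp : p ∈ U) :
    dz a (dz b (dzb c (dzb d F))) p = dz a (dz b (dzb d (dzb c F))) p := by
  refine calc_dz_congr hU (fun x hx => ?_) a hp
  exact calc_dz_congr hU (fun y hy => calc_dzb_comm hU hF c d hy) b hx

theorem st_JET (hC : ST_COND) : ST_JET := by
  intro φ U hU hφ p hp t hten ht
  obtain ⟨g11, g12, g21, g22, t3, t4, t5, t6, t7, t8, q9, q10, q10', q11, q11', q12, q13, q13',
    q14⟩ := hten
  unfold jet dI dJ at g11 g12 g21 g22 t3 t4 t5 t6 t7 t8 q9 q10 q10' q11 q11' q12 q13 q13' q14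
  simp only at g11 g12 g21 g22 t3 t4 t5 t6 t7 t8 q9 q10 q10' q11 q11' q12 q13 q13' q14
  have hF := calc_toC_smooth hφ
  refine calc_frame_good hC hU hφ hp JET_e JET_span t ?_ ?_ ?_ ht
  · intro i j
    fin_cases i <;> fin_cases j
    · exact g11
    · exact g12
    · exact g21
    · exact g22
  · intro i k j
    have hs : ∀ j : Fin 2, dz (0, 1) (dz (1, 0) (dzb (JET_e j) (toC φ))) p =
        dz (1, 0) (dz (0, 1) (dzb (JET_e j) (toC φ))) p := fun j =>
      calc_dz_comm hU (calc_dzb_smooth hU hF _) _ _ hp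
    fin_cases i <;> fin_cases k <;> fin_cases j
    · exact t3
    · exact t4
    · exact t5
    · exact t6
    · exact (hs 0).trans t5
    · exact (hs 1).trans t6
    · exact t7
    · exact t8
  · intro i j k l
    rw [JET_fourth hU hF _ _ _ _ hp]
    have hz : ∀ c d : E, dz (0, 1) (dz (1, 0) (dzb c (dzb d (toC φ)))) p =
      dz (1, 0) (dz (0, 1) (dzb c (dzb d (toC φ)))) p := fun c d => JET_swap_z hU hF _ _ c d hp
    have hzb : ∀ a b : E, dz a (dz b (dzb (0, 1) (dzb (1, 0) (toC φ)))) p =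
      dz a (dz b (dzb (1, 0) (dzb (0, 1) (toC φ)))) p := fun a b => JET_swap_zb hU hF a b _ _ hp
    fin_cases i <;> fin_cases j <;> fin_cases k <;> fin_cases l
    · exact q9
    · exact q10
    · exact q10'
    · exact q12
    · exact (hzb _ _).trans q10
    · exact q11
    · exact (hzb _ _).trans q12
    · exact q13
    · exact (hz _ _).trans q10'
    · exact (hz _ _).trans q12
    · exact q11'
    · exact q13'
    · exact (hz _ _).trans ((hzb _ _).trans q12)
    · exact (hz _ _).trans q13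
    · exact (hzb _ _).trans q13'
    · exact q14

end RicP
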