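import Pool.Agent.Helper88.Ric.Stmts

set_option autoImplicit false

open scoped ContDiff Topology
open Complex ComplexConjugate

noncomputable section

namespace RicP

/-! ### linearity in the direction -/

theorem calc_smul_eq (c : ℂ) (w : E) : c • w = c.re • w + c.im • (I • w) := by
  have h : ∀ z : ℂ, c * z = (c.re : ℂ) * z + (c.im : ℂ) * (I * z) := by
    intro z
    conv_lhs => rw [← Complex.re_add_im c]
    ring
  apply Prod.ext
  · simp only [Prod.smul_fst, Prod.fst_add, smul_eq_mul, real_smul]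
    exact h _
  · simp only [Prod.smul_snd, Prod.snd_add, smul_eq_mul, real_smul]
    exact h _

theorem calc_I_smul_I (w : E) : I • (I • w) = -w := by
  rw [smul_smul, I_mul_I, neg_smul, one_smul]

theorem calc_L_smul (L : E →L[ℝ] ℂ) (c : ℂ) (v : E) :
    L (c • v) = c.re * L v + c.im * L (I • v) := by
  rw [calc_smul_eq c v, map_add, map_smul, map_smul, real_smul, real_smul]

theorem calc_L_smul' (L : E →L[ℝ] ℂ) (c : ℂ) (v : E) :
    L (I • (c • v)) = c.re * L (I • v) - c.im * L v := by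
  rw [smul_comm, calc_L_smul, calc_I_smul_I, map_neg]
  ring

theorem calc_dz_add (v w : E) (f : E → ℂ) (p : E) : dz (v + w) f p = dz v f p + dz w f p := by
  unfold dz
  simp only [smul_add, map_add]
  ring

theorem calc_dzb_add (v w : E) (f : E → ℂ) (p : E) : dzb (v + w) f p = dzb v f p + dzb w f p := by
  unfold dzb
  simp only [smul_add, map_add]
  ring

theorem calc_dz_smul (c : ℂ) (v : E) (f : E → ℂ) (p : E) : dz (c • v) f p = c * dz v f p := by
  unfold dz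
  rw [calc_L_smul, calc_L_smul']
  conv_rhs => rw [← Complex.re_add_im c]
  ring_nf
  rw [I_sq]
  ring

theorem calc_dzb_smul (c : ℂ) (v : E) (f : E → ℂ) (p : E) :
    dzb (c • v) f p = conj c * dzb v f p := by
  unfold dzb
  rw [calc_L_smul, calc_L_smul']
  have hc : conj c = c.re - c.im * I := by
    apply Complex.ext <;> simp
  rw [hc]
  ring_nf
  rw [I_sq]
  ring

/-! ### a common form of the two operators -/

def calcD (s : ℂ) (v : E) (f : E → ℂ) (p : E) : ℂ :=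
  (fderiv ℝ f p v + s * fderiv ℝ f p (I • v)) / 2

theorem calc_dz_eq (v : E) : dz v = calcD (-I) v := by
  funext f p
  unfold dz calcD
  ring

theorem calc_dzb_eq (v : E) : dzb v = calcD I v := rfl

theorem calc_D_smooth {U : Set E} (hU : IsOpen U) {f : E → ℂ} (hf : ContDiffOn ℝ ∞ f U)
    (s : ℂ) (v : E) : ContDiffOn ℝ ∞ (calcD s v f) U := by
  have h1 : ContDiffOn ℝ ∞ (fderiv ℝ f) U := hf.fderiv_of_isOpen hU (by simp)
  have h2 : ∀ w : E, ContDiffOn ℝ ∞ (fun p => fderiv ℝ f p w) U := fun w =>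
    h1.clm_apply contDiffOn_const
  unfold calcD
  exact ((h2 v).add (contDiffOn_const.mul (h2 (I • v)))).div_const 2

theorem calc_diff {U : Set E} (hU : IsOpen U) {f : E → ℂ} (hf : ContDiffOn ℝ ∞ f U)
    {p : E} (hp : p ∈ U) : DifferentiableAt ℝ f p :=
  (hf.contDiffAt (hU.mem_nhds hp)).differentiableAt (by simp)

theorem calc_fderiv_D {U : Set E} (hU : IsOpen U) {f : E → ℂ} (hf : ContDiffOn ℝ ∞ f U)
    (s : ℂ) (w : E) {p : E} (hp : p ∈ U) (v : E) :
    fderiv ℝ (calcD s w f) p v =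
      (fderiv ℝ (fderiv ℝ f) p v w + s * fderiv ℝ (fderiv ℝ f) p v (I • w)) / 2 := by
  have h1 : ContDiffOn ℝ ∞ (fderiv ℝ f) U := hf.fderiv_of_isOpen hU (by simp)
  have h2 : HasFDerivAt (fderiv ℝ f) (fderiv ℝ (fderiv ℝ f) p) p :=
    ((h1.contDiffAt (hU.mem_nhds hp)).differentiableAt (by simp)).hasFDerivAt
  have h3 : ∀ u : E, HasFDerivAt (fun q => fderiv ℝ f q u)
      ((fderiv ℝ (fderiv ℝ f) p).flip u) p := by
    intro u
    have h := h2.clm_apply (hasFDerivAt_const u p)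
    rw [ContinuousLinearMap.comp_zero, zero_add] at h
    exact h
  have h4 : HasFDerivAt (calcD s w f) ((1 / 2 : ℂ) • (((fderiv ℝ (fderiv ℝ f) p).flip w)
      + s • ((fderiv ℝ (fderiv ℝ f) p).flip (I • w)))) p := by
    have h5 := ((h3 w).add ((h3 (I • w)).const_mul s)).const_mul (1 / 2 : ℂ)
    have h6 : calcD s w f = fun q => (1 / 2 : ℂ) * (fderiv ℝ f q w + s * fderiv ℝ f q (I • w)) := by
      funext q
      unfold calcD
      ring
    rw [h6]
    exact h5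
  rw [h4.fderiv]
  simp only [smul_apply, add_apply, smul_eq_mul,
    ContinuousLinearMap.flip_apply]
  ring

theorem calc_D_comm {U : Set E} (hU : IsOpen U) {f : E → ℂ} (hf : ContDiffOn ℝ ∞ f U)
    (s t : ℂ) (v w : E) {p : E} (hp : p ∈ U) :
    calcD s v (calcD t w f) p = calcD t w (calcD s v f) p := by
  have hsym : IsSymmSndFDerivAt ℝ f p :=
    (hf.contDiffAt (hU.mem_nhds hp)).isSymmSndFDerivAt (by
      rw [minSmoothness_of_isRCLikeNormedField]
      exact WithTop.coe_le_coe.2 (le_top : (2 : ℕ∞) ≤ ⊤))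
  have hs : ∀ a b : E, fderiv ℝ (fderiv ℝ f) p a b = fderiv ℝ (fderiv ℝ f) p b a :=
    fun a b => hsym a b
  have e1 : calcD s v (calcD t w f) p = (fderiv ℝ (calcD t w f) p v
    + s * fderiv ℝ (calcD t w f) p (I • v)) / 2 := rfl
  have e2 : calcD t w (calcD s v f) p = (fderiv ℝ (calcD s v f) p w
    + t * fderiv ℝ (calcD s v f) p (I • w)) / 2 := rfl
  rw [e1, e2, calc_fderiv_D hU hf, calc_fderiv_D hU hf, calc_fderiv_D hU hf, calc_fderiv_D hU hf,
    hs w v, hs w (I • v), hs (I • w) v, hs (I • w) (I • v)]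
  · ring
  all_goals exact hp

theorem calc_D_congr {U : Set E} (hU : IsOpen U) {f g : E → ℂ} (h : ∀ x ∈ U, f x = g x)
    (s : ℂ) (v : E) {p : E} (hp : p ∈ U) : calcD s v f p = calcD s v g p := by
  have h1 : f =ᶠ[𝓝 p] g := by
    filter_upwards [hU.mem_nhds hp] with x hx using h x hx
  unfold calcD
  rw [h1.fderiv_eq]

theorem calc_D_sum {ι : Type*} [Fintype ι] {U : Set E} (hU : IsOpen U) (a : ι → ℂ)
    (g : ι → E → ℂ) (hg : ∀ i, ContDiffOn ℝ ∞ (g i) U) (f : E → ℂ)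
    (hf : ∀ x ∈ U, f x = ∑ i, a i * g i x) (s : ℂ) (v : E) {p : E} (hp : p ∈ U) :
    calcD s v f p = ∑ i, a i * calcD s v (g i) p := by
  rw [calc_D_congr hU hf s v hp]
  have h1 : HasFDerivAt (fun x => ∑ i, a i * g i x) (∑ i, a i • fderiv ℝ (g i) p) p := by
    have := HasFDerivAt.fun_sum (u := Finset.univ) (A := fun i x => a i * g i x)
      (A' := fun i => a i • fderiv ℝ (g i) p)
      (fun i _ => ((calc_diff hU (hg i) hp).hasFDerivAt.const_mul (a i)))
    exact this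
  unfold calcD
  rw [h1.fderiv]
  simp only [sum_apply, smul_apply, smul_eq_mul]
  rw [Finset.mul_sum, ← Finset.sum_add_distrib, Finset.sum_div]
  refine Finset.sum_congr rfl fun i _ => ?_
  ring

/-! ### smoothness, commutation, sums for `dz` and `dzb` -/

theorem calc_dz_smooth {U : Set E} (hU : IsOpen U) {f : E → ℂ} (hf : ContDiffOn ℝ ∞ f U)
    (v : E) : ContDiffOn ℝ ∞ (dz v f) U := by
  rw [calc_dz_eq]
  exact calc_D_smooth hU hf _ _

theorem calc_dzb_smooth {U : Set E} (hU : IsOpen U) {f : E → ℂ} (hf : ContDiffOn ℝ ∞ f U)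
    (v : E) : ContDiffOn ℝ ∞ (dzb v f) U := by
  rw [calc_dzb_eq]
  exact calc_D_smooth hU hf _ _

theorem calc_dz_congr {U : Set E} (hU : IsOpen U) {f g : E → ℂ} (h : ∀ x ∈ U, f x = g x)
    (v : E) {p : E} (hp : p ∈ U) : dz v f p = dz v g p := by
  rw [calc_dz_eq]
  exact calc_D_congr hU h _ _ hp

theorem calc_dzb_congr {U : Set E} (hU : IsOpen U) {f g : E → ℂ} (h : ∀ x ∈ U, f x = g x)
    (v : E) {p : E} (hp : p ∈ U) : dzb v f p = dzb v g p := by
  rw [calc_dzb_eq]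
  exact calc_D_congr hU h _ _ hp

theorem calc_dz_comm {U : Set E} (hU : IsOpen U) {f : E → ℂ} (hf : ContDiffOn ℝ ∞ f U)
    (v w : E) {p : E} (hp : p ∈ U) : dz v (dz w f) p = dz w (dz v f) p := by
  simp only [calc_dz_eq]
  exact calc_D_comm hU hf _ _ _ _ hp

theorem calc_dzb_comm {U : Set E} (hU : IsOpen U) {f : E → ℂ} (hf : ContDiffOn ℝ ∞ f U)
    (v w : E) {p : E} (hp : p ∈ U) : dzb v (dzb w f) p = dzb w (dzb v f) p := by
  simp only [calc_dzb_eq]
  exact calc_D_comm hU hf _ _ _ _ hp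

theorem calc_dzb_dz_comm {U : Set E} (hU : IsOpen U) {f : E → ℂ} (hf : ContDiffOn ℝ ∞ f U)
    (v w : E) {p : E} (hp : p ∈ U) : dzb v (dz w f) p = dz w (dzb v f) p := by
  simp only [calc_dzb_eq, calc_dz_eq]
  exact calc_D_comm hU hf _ _ _ _ hp

/-! ### expansion in a frame -/

theorem calc_dz_frame (ε : Fin 2 → E) (c : Fin 2 → ℂ) (f : E → ℂ) (p : E) :
    dz (∑ k, c k • ε k) f p = ∑ k, c k * dz (ε k) f p := by
  rw [Fin.sum_univ_two, Fin.sum_univ_two, calc_dz_add, calc_dz_smul, calc_dz_smul]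

theorem calc_dzb_frame (ε : Fin 2 → E) (c : Fin 2 → ℂ) (f : E → ℂ) (p : E) :
    dzb (∑ k, c k • ε k) f p = ∑ k, conj (c k) * dzb (ε k) f p := by
  rw [Fin.sum_univ_two, Fin.sum_univ_two, calc_dzb_add, calc_dzb_smul, calc_dzb_smul]

theorem calc_step_dz {ι : Type*} [Fintype ι] {U : Set E} (hU : IsOpen U) (ε : Fin 2 → E)
    (c : Fin 2 → ℂ) (a : ι → ℂ) (g : ι → E → ℂ) (hg : ∀ i, ContDiffOn ℝ ∞ (g i) U) (f : E → ℂ)
    (hf : ∀ x ∈ U, f x = ∑ i, a i * g i x) :
    ∀ x ∈ U, dz (∑ k, c k • ε k) f x =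
      ∑ q : ι × Fin 2, (a q.1 * c q.2) * dz (ε q.2) (g q.1) x := by
  intro x hx
  rw [calc_dz_eq, calc_D_sum hU a g hg f hf _ _ hx, Fintype.sum_prod_type]
  refine Finset.sum_congr rfl fun i _ => ?_
  rw [← calc_dz_eq, calc_dz_frame, Finset.mul_sum]
  exact Finset.sum_congr rfl fun k _ => (mul_assoc _ _ _).symm

theorem calc_step_dzb {ι : Type*} [Fintype ι] {U : Set E} (hU : IsOpen U) (ε : Fin 2 → E)
    (c : Fin 2 → ℂ) (a : ι → ℂ) (g : ι → E → ℂ) (hg : ∀ i, ContDiffOn ℝ ∞ (g i) U) (f : E → ℂ)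
    (hf : ∀ x ∈ U, f x = ∑ i, a i * g i x) :
    ∀ x ∈ U, dzb (∑ k, c k • ε k) f x =
      ∑ q : ι × Fin 2, (a q.1 * conj (c q.2)) * dzb (ε q.2) (g q.1) x := by
  intro x hx
  rw [calc_dzb_eq, calc_D_sum hU a g hg f hf _ _ hx, Fintype.sum_prod_type]
  refine Finset.sum_congr rfl fun i _ => ?_
  rw [← calc_dzb_eq, calc_dzb_frame, Finset.mul_sum]
  exact Finset.sum_congr rfl fun k _ => (mul_assoc _ _ _).symm

theorem calc_toC_smooth {U : Set E} {φ : E → ℝ} (hφ : ContDiffOn ℝ ∞ φ U) :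
    ContDiffOn ℝ ∞ (toC φ) U :=
  Complex.ofRealCLM.contDiff.comp_contDiffOn hφ

/-- the Levi form in a frame -/
theorem calc_levi_frame {U : Set E} (hU : IsOpen U) {φ : E → ℝ} (hφ : ContDiffOn ℝ ∞ φ U)
    (ε : Fin 2 → E) (c d : Fin 2 → ℂ) {p : E} (hp : p ∈ U) :
    dz (∑ k, c k • ε k) (dzb (∑ k, d k • ε k) (toC φ)) p =
      ∑ q : Fin 2 × Fin 2, (conj (d q.1) * c q.2) * dz (ε q.2) (dzb (ε q.1) (toC φ)) p :=
  calc_step_dz hU ε c (fun l => conj (d l)) (fun l => dzb (ε l) (toC φ))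
    (fun _ => calc_dzb_smooth hU (calc_toC_smooth hφ) _) _
    (fun x _ => calc_dzb_frame ε d (toC φ) x) p hp

theorem calc_third_frame {U : Set E} (hU : IsOpen U) {φ : E → ℝ} (hφ : ContDiffOn ℝ ∞ φ U)
    (ε : Fin 2 → E) (a b d : Fin 2 → ℂ) {p : E} (hp : p ∈ U) :
    dz (∑ k, a k • ε k) (dz (∑ k, b k • ε k) (dzb (∑ k, d k • ε k) (toC φ))) p =
      ∑ q : (Fin 2 × Fin 2) × Fin 2, (conj (d q.1.1) * b q.1.2 * a q.2) *
        dz (ε q.2) (dz (ε q.1.2) (dzb (ε q.1.1) (toC φ))) p :=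
  calc_step_dz hU ε a _ _
    (fun _ => calc_dz_smooth hU (calc_dzb_smooth hU (calc_toC_smooth hφ) _) _) _
    (fun _ hx => calc_levi_frame hU hφ ε b d hx) p hp

theorem calc_fourth_frame {U : Set E} (hU : IsOpen U) {φ : E → ℝ} (hφ : ContDiffOn ℝ ∞ φ U)
    (ε : Fin 2 → E) (a e b d : Fin 2 → ℂ) {p : E} (hp : p ∈ U) :
    dz (∑ k, a k • ε k) (dzb (∑ k, e k • ε k)
      (dz (∑ k, b k • ε k) (dzb (∑ k, d k • ε k) (toC φ)))) p =
      ∑ q : ((Fin 2 × Fin 2) × Fin 2) × Fin 2,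
        (conj (d q.1.1.1) * b q.1.1.2 * conj (e q.1.2) * a q.2) *
        dz (ε q.2) (dzb (ε q.1.2) (dz (ε q.1.1.2) (dzb (ε q.1.1.1) (toC φ)))) p :=
  calc_step_dz hU ε a _ _
    (fun _ => calc_dzb_smooth hU
      (calc_dz_smooth hU (calc_dzb_smooth hU (calc_toC_smooth hφ) _) _) _) _
    (calc_step_dzb hU ε e _ _
      (fun _ => calc_dz_smooth hU (calc_dzb_smooth hU (calc_toC_smooth hφ) _) _) _
      (fun _ hx => calc_levi_frame hU hφ ε b d hx)) p hp

/-! ### the tensors as functions of indices -/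

def calcT2 (t : Ten) (i j : Fin 2) : ℝ :=
  if i = 0 then (if j = 0 then t 0 else t 1) else (if j = 0 then t 1 else t 2)

/-- `T_{ik,j}` -/
def calcT3 (t : Ten) (i k j : Fin 2) : ℝ :=
  if i = 0 then
    (if k = 0 then (if j = 0 then t 3 else t 4) else (if j = 0 then t 5 else t 6))
  else
    (if k = 0 then (if j = 0 then t 5 else t 6) else (if j = 0 then t 7 else t 8))

/-- `Q_{ik,jl}` -/
def calcQ4 (t : Ten) (i k j l : Fin 2) : ℝ :=
  if i = 0 then
    (if k = 0 then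
      (if j = 0 then (if l = 0 then t 9 else t 10) else (if l = 0 then t 10 else t 11))
    else
      (if j = 0 then (if l = 0 then t 10 else t 12) else (if l = 0 then t 12 else t 13)))
  else
    (if k = 0 then
      (if j = 0 then (if l = 0 then t 10 else t 12) else (if l = 0 then t 12 else t 13))
    else
      (if j = 0 then (if l = 0 then t 11 else t 13) else (if l = 0 then t 13 else t 14)))

theorem calc_frame_good (hC : ST_COND) {U : Set E} (hU : IsOpen U) {φ : E → ℝ}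
    (hφ : ContDiffOn ℝ ∞ φ U) {p : E} (hp : p ∈ U) (ε : Fin 2 → E)
    (hε : ∀ v : E, ∃ c : Fin 2 → ℂ, v = ∑ k, c k • ε k) (t : Ten)
    (h2 : ∀ i j, dz (ε i) (dzb (ε j) (toC φ)) p = calcT2 t i j)
    (h3 : ∀ i k j, dz (ε i) (dz (ε k) (dzb (ε j) (toC φ))) p = calcT3 t i k j)
    (h4 : ∀ i j k l, dz (ε i) (dzb (ε j) (dz (ε k) (dzb (ε l) (toC φ)))) p = calcQ4 t i k j l)
    (ht : t.Cond) : GoodAt φ p := by
  obtain ⟨hpos, hneg⟩ := hC t ht
  have hG : ∀ c d : Fin 2 → ℂ, levi φ p (∑ k, c k • ε k) (∑ k, d k • ε k) =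
      t.G (c 0, c 1) (d 0, d 1) := by
    intro c d
    unfold levi
    rw [calc_levi_frame hU hφ ε c d hp]
    simp only [h2, Fintype.sum_prod_type, Fin.sum_univ_two, calcT2, Ten.G, if_true,
      Fin.isValue, one_ne_zero, if_false]
    ring
  have hT : ∀ a b d : Fin 2 → ℂ, dz (∑ k, a k • ε k) (dz (∑ k, b k • ε k)
      (dzb (∑ k, d k • ε k) (toC φ))) p = t.T3 (a 0, a 1) (b 0, b 1) (d 0, d 1) := by
    intro a b d
    rw [calc_third_frame hU hφ ε a b d hp]
    simp only [h3, Fintype.sum_prod_type, Fin.sum_univ_two, calcT3, Ten.T3, if_true,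
      Fin.isValue, one_ne_zero, if_false]
    ring
  have hQ : ∀ a e b d : Fin 2 → ℂ, dz (∑ k, a k • ε k) (dzb (∑ k, e k • ε k)
      (dz (∑ k, b k • ε k) (dzb (∑ k, d k • ε k) (toC φ)))) p =
      t.Q4 (a 0, a 1) (b 0, b 1) (e 0, e 1) (d 0, d 1) := by
    intro a e b d
    rw [calc_fourth_frame hU hφ ε a e b d hp]
    simp only [h4, Fintype.sum_prod_type, Fin.sum_univ_two, calcQ4, Ten.Q4, if_true,
      Fin.isValue, one_ne_zero, if_false, map_mul, map_add]
    ring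
  intro q hq
  rw [Set.mem_singleton_iff] at hq
  subst hq
  refine ⟨?_, ?_⟩
  · intro v hv
    obtain ⟨c, rfl⟩ := hε v
    rw [hG]
    apply hpos
    intro h
    apply hv
    rw [Prod.mk_eq_zero] at h
    rw [Fin.sum_univ_two, h.1, h.2, zero_smul, zero_smul, add_zero]
  · intro e₁ e₂ ⟨h11, h22, h12⟩
    obtain ⟨c, rfl⟩ := hε e₁
    obtain ⟨d, rfl⟩ := hε e₂
    rw [hG] at h11 h22 h12
    unfold orthBisec
    rw [hT, hT, hQ]
    exact hneg _ _ h11 h22 h12

end RicP
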